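import Mathlib

set_option autoImplicit false

open Filter Topology Set

namespace Pool.Agent.Results.MP_ea58a7_an.Yes

theorem core {b a c : ℝ} (b1 : 1 < b) (a0 : 0 ≤ a) (ba : b * a ≤ 1) (hc : b * c = 1 + a)
    {A : Set ℝ} (hA : IsClosed A) (sub : A ⊆ Icc a (1 + a)) (P1 : ∀ y ∈ A, y < c → b * y ∈ A)
    (P2 : ∀ y ∈ A, c < y → b * y - 1 ∈ A) {s t : ℝ} (st : s < t) (h : Icc s t ⊆ A) :
    Icc a (1 + a) ⊆ A := by
  have b0 : 0 < b := by linarith
  have e : ∀ z, b * (z / b) = z := fun z => by field_simp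
  have I1 : ∀ s t, s < t → Icc s t ⊆ A → t ≤ c → Icc (b * s) (b * t) ⊆ A := fun s t st h k => by
    rw [← closure_Ico (by nlinarith)]
    refine closure_minimal (fun z ⟨h1, h2⟩ => ?_) hA
    have : z / b < t := by rw [div_lt_iff₀ b0]; linarith
    exact e z ▸ P1 _ (h ⟨by rw [le_div_iff₀ b0]; linarith, this.le⟩) (by linarith)
  have I2 : ∀ s t, s < t → Icc s t ⊆ A → c ≤ s → Icc (b * s - 1) (b * t - 1) ⊆ A :=
    fun s t st h k => by
      rw [← closure_Ioc (by nlinarith)]
      refine closure_minimal (fun z ⟨h1, h2⟩ => ?_) hA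
      have : s < (z + 1) / b := by rw [lt_div_iff₀ b0]; linarith
      simpa [e] using P2 _ (h ⟨this.le, by rw [div_le_iff₀ b0]; linarith⟩) (by linarith)
  have I3 : ∀ s t, s < t → 0 < t → Icc s t ⊆ A →
      ∃ j : ℕ, Icc (b ^ j * s) (b ^ j * t) ⊆ A ∧ c < b ^ j * t := fun s t st t0 h => by
    by_contra! q
    have : ∀ j : ℕ, Icc (b ^ j * s) (b ^ j * t) ⊆ A := fun j => by
      induction j with
      | zero => simpa
      | succ j ih =>
        rw [pow_succ', mul_assoc, mul_assoc]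
        exact I1 _ _ (mul_lt_mul_of_pos_left st (pow_pos b0 _)) ih (q j ih)
    obtain ⟨j, hj⟩ := (((tendsto_pow_atTop_atTop_of_one_lt b1).atTop_mul_const t0).eventually_gt_atTop
      c).exists
    exact hj.not_ge (q j (this j))
  let K := {p : ℝ × ℝ | 0 ≤ p.2 ∧ ∀ r ∈ Icc (0 : ℝ) 1, p.1 + r * p.2 ∈ A}
  have mK : ∀ s t, s ≤ t → Icc s t ⊆ A → (s, t - s) ∈ K := fun s t st h =>
    ⟨sub_nonneg.2 st, fun r ⟨r0, r1⟩ => h ⟨by nlinarith, by nlinarith⟩⟩
  have cK : IsCompact K := by
    refine (isCompact_Icc (a := (a, 0)) (b := (1 + a, 1))).of_isClosed_subset ?_ fun p ⟨h1, h2⟩ => ?_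
    · simp only [K, ofPred_and, ofPred_forall]
      exact (isClosed_le continuous_const continuous_snd).inter
        (isClosed_iInter fun r => isClosed_iInter fun _ => hA.preimage (by fun_prop))
    · have h3 := sub (h2 0 (by simp))
      have h4 := sub (h2 1 (by simp))
      simp only [zero_mul, add_zero, one_mul, mem_Icc] at h3 h4
      exact ⟨⟨h3.1, h1⟩, h3.2, by simp only; linarith [h3.1, h4.2]⟩
  obtain ⟨⟨u, D⟩, ⟨-, hJ⟩, hM⟩ := cK.exists_isMaxOn ⟨_, mK s t st.le h⟩
    continuous_snd.continuousOn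
  obtain ⟨v, rfl⟩ : ∃ v, D = v - u := ⟨D + u, by ring⟩
  have M : ∀ s t, s ≤ t → Icc s t ⊆ A → t - s ≤ v - u := fun s t st h => hM (mK s t st h)
  have uv : u < v := by linarith [M s t st.le h]
  have J : Icc u v ⊆ A := fun z ⟨h1, h2⟩ => by
    have p := sub_pos.2 uv
    have := hJ ((z - u) / (v - u)) ⟨div_nonneg (by linarith) p.le, (div_le_one p).2 (by linarith)⟩
    simpa [p.ne'] using this
  have N : ∀ s t, s ≤ t → Icc s t ⊆ A → s ≤ v → u ≤ t → u ≤ s ∧ t ≤ v := fun s t st h h1 h2 => by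
    constructor <;> by_contra! k
    · have := M s v h1 fun z ⟨z1, z2⟩ => (le_total z t).elim (fun q => h ⟨z1, q⟩)
        fun q => J ⟨h2.trans q, z2⟩
      linarith
    · have := M u t h2 fun z ⟨z1, z2⟩ => (le_total z v).elim (fun q => J ⟨z1, q⟩)
        fun q => h ⟨h1.trans q, z2⟩
      linarith
  have c1 : c < v := by
    by_contra! k
    have := M _ _ (by nlinarith) (I1 u v uv J k)
    nlinarith
  have c2 : u < c := by
    by_contra! k
    have := M _ _ (by nlinarith) (I2 u v uv J k)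
    nlinarith
  have L1 := I1 u c c2 (fun z hz => J ⟨hz.1, hz.2.trans c1.le⟩) le_rfl
  have R1 := I2 c v c1 (fun z hz => J ⟨c2.le.trans hz.1, hz.2⟩) le_rfl
  rw [hc] at L1 R1
  rw [add_sub_cancel_left] at R1
  have u1 := sub (J ⟨le_rfl, uv.le⟩)
  have y0 : 0 < b * (1 + a) - 1 := by nlinarith
  have ca : c < 1 + a := by by_contra! k; nlinarith
  have bu : b * u < 1 + a := by nlinarith
  by_cases q : b * u ≤ v
  · have v1 := (N _ _ (by nlinarith) L1 q u1.2).2
    have : ∀ k : ℕ, Icc a (min (b ^ k * (b * (1 + a) - 1)) (1 + a)) ⊆ A := fun k => by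
      induction k with
      | zero => exact fun z ⟨z1, z2⟩ => R1 ⟨z1, by
          have := z2.trans (min_le_left _ _); nlinarith⟩
      | succ k ih =>
        intro z ⟨z1, z2⟩
        rw [le_min_iff] at z2
        rcases le_total z (b * a) with w | w
        · exact R1 ⟨z1, by nlinarith⟩
        rcases z2.2.eq_or_lt with rfl | w2
        · exact J ⟨u1.2, v1⟩
        have : z / b < c := by rw [div_lt_iff₀ b0]; linarith
        refine e z ▸ P1 _ (ih ⟨by rw [le_div_iff₀ b0]; linarith, le_min ?_ (by linarith)⟩) this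
        rw [div_le_iff₀ b0]
        linarith [z2.1, pow_succ b k ▸ z2.1]
    obtain ⟨j, hj⟩ := (((tendsto_pow_atTop_atTop_of_one_lt b1).atTop_mul_const
      y0).eventually_ge_atTop (1 + a)).exists
    exact min_eq_right hj ▸ this j
  exfalso
  push Not at q
  obtain ⟨j, j1, j2⟩ := I3 _ _ (by nlinarith) y0 (I2 _ _ bu L1 (by linarith))
  obtain ⟨i, i1, i2⟩ := I3 _ _ (by nlinarith) (by nlinarith) R1
  obtain ⟨p, rfl⟩ : ∃ p, u = c - p := ⟨c - u, by ring⟩
  obtain ⟨r, rfl⟩ : ∃ r, v = c + r := ⟨v - c, by ring⟩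
  have p0 : 0 < p := by linarith
  have r0 : 0 < r := by linarith
  set y := b * (1 + a) - 1 with hy
  have l0 := pow_pos b0 j
  have m0 := pow_pos b0 i
  rw [show b * (b * (c - p)) - 1 = y - b ^ 2 * p by rw [hy, ← hc]; ring] at j1
  rw [show b * (c + r) - 1 = a + b * r by linarith] at i1 i2
  have bp : 0 < b ^ 2 * p := by positivity
  have br : 0 < b * r := by positivity
  have HL : p < r * (y - b ^ 2 * p) ∨ (b ^ j * y = c + r ∧ p ≤ r * (y - b ^ 2 * p)) := by
    obtain ⟨f, hf⟩ : ∃ f, b ^ j * y = c + f := ⟨b ^ j * y - c, by ring⟩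
    have id : b ^ j * b ^ 2 * p * y = p * (y + 1 + b ^ 2 * f) := by
      rw [show b ^ j * b ^ 2 * p * y = b ^ 2 * p * (b ^ j * y) by ring, hf, hy, ← hc]; ring
    rcases le_or_gt f r with k | k
    · have := (N _ _ (by nlinarith) j1 (by nlinarith) (by linarith)).1
      have : b ^ j * b ^ 2 * p * y ≤ (f + p) * y := mul_le_mul_of_nonneg_right (by linarith) y0.le
      have w : p ≤ f * (y - b ^ 2 * p) := by linarith
      have : 0 < y - b ^ 2 * p := by by_contra! z; nlinarith
      rcases k.eq_or_lt with rfl | k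
      · exact Or.inr ⟨hf, w⟩
      · exact Or.inl (by nlinarith)
    · have := M _ _ (by nlinarith) j1
      have : b ^ j * b ^ 2 * p * y ≤ (r + p) * y := mul_le_mul_of_nonneg_right (by linarith) y0.le
      exact Or.inl (by nlinarith)
  have HR : r < p * (a + b * r) ∨ (b ^ i * a = c - p ∧ r ≤ p * (a + b * r)) := by
    obtain ⟨f, hf⟩ : ∃ f, b ^ i * a = c - f := ⟨c - b ^ i * a, by ring⟩
    have id : b ^ i * b * r * a = r * (1 + a - b * f) := by
      rw [show b ^ i * b * r * a = b * r * (b ^ i * a) by ring, hf, ← hc]; ring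
    rcases le_or_gt f 0 with k | k
    · have := M _ _ (by nlinarith) i1
      have : b ^ i * b * r * a ≤ (r + p) * a := mul_le_mul_of_nonneg_right (by linarith) a0
      exact Or.inl (by nlinarith)
    · obtain ⟨n1, n2⟩ := N _ _ (by nlinarith) i1 (by linarith) (by linarith)
      have : b ^ i * b * r * a ≤ (r + f) * a := mul_le_mul_of_nonneg_right (by linarith) a0
      have w : r ≤ f * (a + b * r) := by linarith
      rcases (show f ≤ p by linarith).eq_or_lt with rfl | k
      · exact Or.inr ⟨hf, w⟩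
      · exact Or.inl (by nlinarith)
  have w1 : r * y ≤ r * b := mul_le_mul_of_nonneg_left (by linarith) r0.le
  have w2 : p * (b * a) ≤ p := by nlinarith
  rcases HL with k | ⟨k, k'⟩
  · have : b * r ≤ b * (p * (a + b * r)) := mul_le_mul_of_nonneg_left
      (HR.elim le_of_lt And.right) b0.le
    nlinarith
  rcases HR with l | ⟨l, l'⟩
  · have := mul_lt_mul_of_pos_left l b0
    nlinarith
  have := mul_le_mul_of_nonneg_left l' b0.le
  have ba1 : b * a = 1 := le_antisymm ba (by by_contra! z; nlinarith)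
  have h1 : b ^ (j + 1) < b ^ i := by
    rw [pow_succ]
    have : y = b := by linarith
    have : b * (b ^ i * a) = b ^ i := by rw [mul_left_comm, ba1, mul_one]
    nlinarith
  have h2 := pow_le_pow_right₀ b1.le (show j + 2 ≤ i from (pow_lt_pow_iff_right₀ b1).1 h1)
  have : y = b := by linarith
  have : b * (b ^ i * a) = b ^ i := by rw [mul_left_comm, ba1, mul_one]
  have : b ^ (j + 2) = b * (b ^ j * y) := by rw [‹y = b›]; ring
  nlinarith

theorem core2 {α b : ℝ} (b1 : 1 < b) (a0 : 0 ≤ α) (ba : α ≤ 1 - 1 / b)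
    {A : Set ℝ} (hA : IsClosed A) (sub : A ⊆ Icc 0 1)
    (P1 : ∀ y ∈ A, b * y + α < 1 → b * y + α ∈ A)
    (P2 : ∀ y ∈ A, 1 < b * y + α → b * y + α - 1 ∈ A) {s t : ℝ} (st : s < t) (h : Icc s t ⊆ A) :
    Icc 0 1 ⊆ A := by
  obtain ⟨a, ha⟩ : ∃ a, α = (b - 1) * a := ⟨α / (b - 1), by field_simp [(sub_pos.2 b1).ne']⟩
  have b0 : 0 < b := by linarith
  have e : b * (1 / b) = 1 := by field_simp
  have := core (a := a) (c := (1 + a) / b) (A := (fun y => y - a) ⁻¹' A) (s := s + a) (t := t + a) b1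
    (by by_contra! k; nlinarith) (by by_contra! k; nlinarith) (by field_simp)
    (hA.preimage (by fun_prop)) (fun y hy => ⟨by linarith [(sub hy).1], by linarith [(sub hy).2]⟩)
    (fun y hy k => by
      rw [lt_div_iff₀ b0] at k
      show b * y - a ∈ A
      convert P1 _ hy (by linarith) using 1
      rw [ha]; ring)
    (fun y hy k => by
      rw [div_lt_iff₀ b0] at k
      show b * y - 1 - a ∈ A
      convert P2 _ hy (by linarith) using 1
      rw [ha]; ring)
    (by linarith) fun y hy => h ⟨by linarith [hy.1], by linarith [hy.2]⟩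
  exact fun x hx => by simpa using @this (x + a) ⟨by linarith [hx.1], by linarith [hx.2]⟩

noncomputable def T (α β x : ℝ) : ℝ := Int.fract (β * x + α)

theorem result (α β : ℝ) (h1 : 1 < β) (h2 : 0 ≤ α) (h3 : α + β ≤ 2)
    (h : α ≤ 1 - 1 / β ∨ 1 + 1 / β - β ≤ α) (U V : Set ℝ) (hU : IsOpen U) (hV : IsOpen V)
    (nU : (U ∩ Ico 0 1).Nonempty) (nV : (V ∩ Ico 0 1).Nonempty) :
    ∃ n : ℕ, ((T α β)^[n] '' (U ∩ Ico 0 1) ∩ (V ∩ Ico 0 1)).Nonempty := by
  set O := ⋃ n : ℕ, (T α β)^[n] '' (U ∩ Ico 0 1)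
  have O1 : O ⊆ Ico 0 1 := by
    rintro _ ⟨_, ⟨n, rfl⟩, x, hx, rfl⟩
    cases n with
    | zero => exact hx.2
    | succ n => rw [Function.iterate_succ_apply']; exact ⟨Int.fract_nonneg _, Int.fract_lt_one _⟩
  have O2 : ∀ y ∈ O, T α β y ∈ O := by
    rintro _ ⟨_, ⟨n, rfl⟩, x, hx, rfl⟩
    exact mem_iUnion.2 ⟨n + 1, x, hx, Function.iterate_succ_apply' _ _ _⟩
  have sub : closure O ⊆ Icc 0 1 := closure_minimal (O1.trans Ico_subset_Icc_self) isClosed_Icc
  have P1 : ∀ y ∈ closure O, β * y + α < 1 → β * y + α ∈ closure O := fun y hy k =>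
    map_mem_closure (f := fun y => β * y + α) (by fun_prop)
      ((isOpen_lt (f := fun y => β * y + α) (by fun_prop) continuous_const).inter_closure ⟨k, hy⟩)
      fun z hz => by
        have := O2 z hz.2
        rwa [T, Int.fract_eq_self.2 ⟨by nlinarith [(O1 hz.2).1], hz.1⟩] at this
  have P2 : ∀ y ∈ closure O, 1 < β * y + α → β * y + α - 1 ∈ closure O := fun y hy k =>
    map_mem_closure (f := fun y => β * y + α - 1) (by fun_prop)
      ((isOpen_lt (g := fun y => β * y + α) continuous_const (by fun_prop)).inter_closure ⟨k, hy⟩)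
      fun z hz => by
        have := O2 z hz.2
        rwa [T, ← Int.fract_sub_one, Int.fract_eq_self.2 ⟨sub_nonneg.2 (le_of_lt hz.1),
          by nlinarith [(O1 hz.2).2]⟩] at this
  obtain ⟨s, s1, s2⟩ := nU
  obtain ⟨t, st, ht⟩ := mem_nhdsGE_iff_exists_Icc_subset.1
    (inter_mem (nhdsWithin_le_nhds (hU.mem_nhds s1)) (mem_of_superset (Ico_mem_nhdsGE s2.2)
      (Ico_subset_Ico_left s2.1)))
  have hI : Icc s t ⊆ closure O := fun z hz => subset_closure (mem_iUnion.2 ⟨0, z, ht hz, rfl⟩)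
  have : Icc 0 1 ⊆ closure O := by
    rcases h with h | h
    · exact core2 h1 h2 h isClosed_closure sub P1 P2 st hI
    have := core2 (α := 2 - β - α) (A := (fun y => 1 - y) ⁻¹' closure O) (s := 1 - t) (t := 1 - s) h1
      (by linarith) (by linarith) (isClosed_closure.preimage (by fun_prop))
      (fun y hy => ⟨by linarith [(sub hy).2], by linarith [(sub hy).1]⟩)
      (fun y hy k => by
        show 1 - _ ∈ closure O
        convert P2 _ hy (by linarith) using 1
        ring)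
      (fun y hy k => by
        show 1 - _ ∈ closure O
        convert P1 _ hy (by linarith) using 1
        ring)
      (by linarith) fun y hy => hI ⟨by linarith [hy.2], by linarith [hy.1]⟩
    exact fun x hx => by simpa using @this (1 - x) ⟨by linarith [hx.2], by linarith [hx.1]⟩
  obtain ⟨x, x1, x2⟩ := nV
  obtain ⟨y, y1, y2⟩ := mem_closure_iff.1 (this (Ico_subset_Icc_self x2)) V hV x1
  obtain ⟨n, hn⟩ := mem_iUnion.1 y2
  exact ⟨n, y, hn, y1, O1 y2⟩

end Pool.Agent.Results.MP_ea58a7_an.Yes
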